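import Pool.Agent.OFK66.KK
import Pool.Agent.RKF.Main

/-!
# Odd half of MP_f155e9_co, case 1 (page h97_oddfix.md, section 1)

`n = 2 s + 1 + k`, `F` an antichain such that disjoint members have together at most `2 s + 1` points.
If the `(s+2)`-sets below `F` have density at most `4 ^ (-(3 k + 3))` and `n ≥ 9 k + 15` then
`|F| ≤ C(n, s)`.
-/

set_option autoImplicit false

namespace Pool.Agent.OFK66

open Finset
open scoped FinsetFamily

variable {n : ℕ}

/-- the sets of size `m` inside members of `F` -/
def dc (F : Finset (Finset (Fin n))) (m : ℕ) : Finset (Finset (Fin n)) :=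
  open Classical in (powersetCard m univ).filter fun T => ∃ A ∈ F, T ⊆ A

theorem mem_dc {F : Finset (Finset (Fin n))} {m : ℕ} {T : Finset (Fin n)} :
    T ∈ dc F m ↔ T.card = m ∧ ∃ A ∈ F, T ⊆ A := by
  classical
  unfold dc
  rw [mem_filter, mem_powersetCard]
  simp

theorem sized_dc (F : Finset (Finset (Fin n))) (m : ℕ) :
    ((dc F m : Finset (Finset (Fin n))) : Set (Finset (Fin n))).Sized m :=
  fun _ hT => (mem_dc.1 hT).1

theorem shadow_dc (F : Finset (Finset (Fin n))) (m : ℕ) : ∂ (dc F (m + 1)) ⊆ dc F m := by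
  intro T hT
  obtain ⟨A, hA, a, ha, rfl⟩ := mem_shadow_iff.1 hT
  obtain ⟨h1, B, hB, h2⟩ := mem_dc.1 hA
  rw [mem_dc, card_erase_of_mem ha, h1]
  exact ⟨rfl, B, hB, (erase_subset _ _).trans h2⟩

theorem dc_top (F : Finset (Finset (Fin n))) {m : ℕ} (hm : n < m) : dc F m = ∅ := by
  rw [eq_empty_iff_forall_notMem]
  intro T hT
  have h1 := (mem_dc.1 hT).1
  have h2 := card_le_univ T
  rw [Fintype.card_fin] at h2
  omega

/-- local LYM: the density of `dc F m` is nonincreasing in `m` -/
theorem dens_step (F : Finset (Finset (Fin n))) (m : ℕ) :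
    (dc F (m + 1)).card * n.choose m ≤ (dc F m).card * n.choose (m + 1) := by
  have h1 := local_lubell_yamamoto_meshalkin_inequality_mul (sized_dc F (m + 1))
  rw [Fintype.card_fin] at h1
  rcases Nat.lt_or_ge n (m + 1) with h | h
  · rw [dc_top F h]
    simp
  have h2 : n - (m + 1) + 1 = n - m := by omega
  rw [h2] at h1
  have h3 := Nat.choose_succ_right_eq n m
  have h4 := card_le_card (shadow_dc F m)
  refine Nat.le_of_mul_le_mul_right (c := m + 1) ?_ (Nat.succ_pos m)
  calc (dc F (m + 1)).card * n.choose m * (m + 1)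
      = (dc F (m + 1)).card * (m + 1) * n.choose m := by ring
    _ ≤ (∂ (dc F (m + 1))).card * (n - m) * n.choose m := Nat.mul_le_mul_right _ h1
    _ ≤ (dc F m).card * (n - m) * n.choose m := by
        exact Nat.mul_le_mul_right _ (Nat.mul_le_mul_right _ h4)
    _ = (dc F m).card * (n.choose m * (n - m)) := by ring
    _ = (dc F m).card * n.choose (m + 1) * (m + 1) := by rw [← h3]; ring

theorem dens_mono (F : Finset (Finset (Fin n))) {D m₀ m : ℕ} (h : m₀ ≤ m)
    (h0 : D * (dc F m₀).card ≤ n.choose m₀) : D * (dc F m).card ≤ n.choose m := by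
  induction m, h using Nat.le_induction with
  | base => exact h0
  | succ m hm ih =>
    rcases Nat.lt_or_ge n m with h | h
    · rw [dc_top F (by omega)]
      simp
    · refine Nat.le_of_mul_le_mul_right (c := n.choose m) ?_ (Nat.choose_pos h)
      calc D * (dc F (m + 1)).card * n.choose m = D * ((dc F (m + 1)).card * n.choose m) := by ring
        _ ≤ D * ((dc F m).card * n.choose (m + 1)) := Nat.mul_le_mul_left _ (dens_step F m)
        _ = D * (dc F m).card * n.choose (m + 1) := by ring
        _ ≤ n.choose m * n.choose (m + 1) := Nat.mul_le_mul_right _ ih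
        _ = n.choose (m + 1) * n.choose m := mul_comm _ _

theorem choose_low {m : ℕ} (t : ℕ) (ht : 4 * m + 3 * t ≤ 3 * n) :
    n.choose m ≤ 4 ^ t * (n - t).choose m := by
  induction t with
  | zero => simp
  | succ t ih =>
    refine (ih (by omega)).trans ?_
    rw [pow_succ, mul_assoc]
    refine Nat.mul_le_mul_left _ ?_
    have hnt : t < n := by
      by_contra h
      omega
    obtain ⟨N, hN⟩ : ∃ N, n - t = N + 1 := ⟨n - t - 1, by omega⟩
    have hN' : n - (t + 1) = N := by omega
    rw [hN, hN']
    have h1 := Nat.choose_mul_succ_eq N m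
    have h2 : 0 < N + 1 - m := by omega
    refine Nat.le_of_mul_le_mul_right (c := N + 1 - m) ?_ h2
    rw [← h1]
    calc N.choose m * (N + 1) ≤ N.choose m * (4 * (N + 1 - m)) :=
          Nat.mul_le_mul_left _ (by omega)
      _ = 4 * N.choose m * (N + 1 - m) := by ring

/-- growth below the middle: sparse levels have large shadows -/
theorem growth (F : Finset (Finset (Fin n))) {s k m : ℕ} (hn : n = 2 * s + 1 + k)
    (hN : 9 * k + 15 ≤ n) (hm : s + 2 ≤ m)
    (h0 : 4 ^ (3 * k + 3) * (dc F (s + 2)).card ≤ n.choose (s + 2)) :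
    (dc F m).card ≤ (∂ (dc F m)).card := by
  have hmp : 0 < m := by omega
  rcases Nat.lt_or_ge n (2 * m) with h | h
  · have h1 := local_lubell_yamamoto_meshalkin_inequality_mul (sized_dc F m)
    rw [Fintype.card_fin] at h1
    refine Nat.le_of_mul_le_mul_right (c := m) ?_ hmp
    refine h1.trans (Nat.mul_le_mul_left _ ?_)
    rcases Nat.lt_or_ge n m with h' | h'
    · omega
    · omega
  · have h1 := dens_mono F hm h0
    have h2 := choose_low (n := n) (m := m) (3 * k + 3) (by omega)
    have h3 : (dc F m).card ≤ (n - (3 * k + 3)).choose m :=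
      Nat.le_of_mul_le_mul_left (h1.trans h2) (by positivity)
    have h4 := kk_ratio hmp (Nat.sub_le n (3 * k + 3)) (dc F m) (sized_dc F m) h3
    refine Nat.le_of_mul_le_mul_left (h4.trans (Nat.mul_le_mul_right _ ?_)) hmp
    omega

/-- the step of the induction: members of size `m` and the shadow of the next level -/
theorem dc_split (F : Finset (Finset (Fin n)))
    (hF : IsAntichain (· ⊆ ·) (F : Set (Finset (Fin n)))) (m : ℕ) :
    (F.filter fun A => A.card = m).card + (∂ (dc F (m + 1))).card ≤ (dc F m).card := by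
  classical
  rw [← card_union_of_disjoint]
  · refine card_le_card (union_subset ?_ (shadow_dc F m))
    intro A hA
    rw [mem_filter] at hA
    exact mem_dc.2 ⟨hA.2, A, hA.1, Subset.rfl⟩
  · rw [disjoint_left]
    intro A hA hA'
    rw [mem_filter] at hA
    obtain ⟨B, hB, a, ha, rfl⟩ := mem_shadow_iff.1 hA'
    obtain ⟨_, C, hC, h2⟩ := mem_dc.1 hB
    have h3 : B.erase a = C := hF.eq hA.1 hC ((erase_subset _ _).trans h2)
    have h4 : a ∈ B.erase a := by
      rw [h3]
      exact h2 ha
    simp at h4

theorem card_above (F : Finset (Finset (Fin n)))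
    (hF : IsAntichain (· ⊆ ·) (F : Set (Finset (Fin n)))) {s k : ℕ} (hn : n = 2 * s + 1 + k)
    (hN : 9 * k + 15 ≤ n) (h0 : 4 ^ (3 * k + 3) * (dc F (s + 2)).card ≤ n.choose (s + 2)) :
    ∀ j m, n + 1 ≤ m + j → s + 2 ≤ m →
      (F.filter fun A => m ≤ A.card).card ≤ (dc F m).card := by
  classical
  intro j
  induction j with
  | zero =>
    intro m h1 _
    have : (F.filter fun A => m ≤ A.card) = ∅ := by
      rw [eq_empty_iff_forall_notMem]
      intro A hA
      rw [mem_filter] at hA
      have h2 := card_le_univ A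
      rw [Fintype.card_fin] at h2
      omega
    rw [this]
    simp
  | succ j ih =>
    intro m h1 h2
    have h3 := ih (m + 1) (by omega) (by omega)
    have h4 := growth F hn hN (show s + 2 ≤ m + 1 by omega) h0
    have h5 := dc_split F hF m
    have h6 : (F.filter fun A => m ≤ A.card).card ≤
        (F.filter fun A => A.card = m).card + (F.filter fun A => m + 1 ≤ A.card).card := by
      rw [← card_union_of_disjoint]
      · refine card_le_card ?_
        intro A hA
        rw [mem_filter] at hA
        rw [mem_union, mem_filter, mem_filter]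
        rcases Nat.lt_or_ge m A.card with h | h
        · exact Or.inr ⟨hA.1, h⟩
        · exact Or.inl ⟨hA.1, by omega⟩
      · rw [disjoint_left]
        intro A hA hA'
        rw [mem_filter] at hA hA'
        omega
    omega

/-- the sets of size `s` which contain a small member -/
def upl (F : Finset (Finset (Fin n))) (s : ℕ) : Finset (Finset (Fin n)) :=
  open Classical in (powersetCard s univ).filter fun T => ∃ A ∈ F, A.card < s ∧ A ⊆ T

theorem mem_upl {F : Finset (Finset (Fin n))} {s : ℕ} {T : Finset (Fin n)} :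
    T ∈ upl F s ↔ T.card = s ∧ ∃ A ∈ F, A.card < s ∧ A ⊆ T := by
  classical
  unfold upl
  rw [mem_filter, mem_powersetCard]
  simp

private theorem choose_half_OFK {a b : ℕ} (h : a ≤ b) (hb : 2 * b ≤ n) :
    n.choose a ≤ n.choose b := by
  induction b, h using Nat.le_induction with
  | base => exact le_refl _
  | succ b _ ih =>
    refine (ih (by omega)).trans ?_
    exact Nat.choose_le_succ_of_lt_half_left (by omega)

theorem card_low_le (F : Finset (Finset (Fin n)))
    (hF : IsAntichain (· ⊆ ·) (F : Set (Finset (Fin n)))) {s : ℕ} (hs : 2 * s ≤ n) :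
    (F.filter fun A => A.card < s).card ≤ (upl F s).card := by
  classical
  set L := F.filter fun A => A.card < s with hL
  set R := powersetCard s (univ : Finset (Fin n)) \ upl F s with hR
  have hmL : ∀ A, A ∈ L ↔ A ∈ F ∧ A.card < s := by
    intro A
    rw [hL, mem_filter]
  have hmR : ∀ A, A ∈ R ↔ A.card = s ∧ A ∉ upl F s := by
    intro A
    rw [hR, mem_sdiff, mem_powersetCard]
    simp
  have hdis : Disjoint L R := by
    rw [disjoint_left]
    intro A h1 h2
    rw [hmL] at h1
    rw [hmR] at h2
    omega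
  have hanti : IsAntichain (· ⊆ ·) ((L ∪ R : Finset (Finset (Fin n))) : Set (Finset (Fin n))) := by
    intro A hA B hB hne hsub
    rw [mem_coe, mem_union, hmL, hmR] at hA hB
    rcases hA with hA | hA <;> rcases hB with hB | hB
    · exact hne (hF.eq hA.1 hB.1 hsub)
    · exact hB.2 (mem_upl.2 ⟨hB.1, A, hA.1, hA.2, hsub⟩)
    · have := card_le_card hsub
      omega
    · exact hne (eq_of_subset_of_card_le hsub (by omega))
  have h1 := lubell_yamamoto_meshalkin_inequality_sum_inv_choose (𝕜 := ℚ) hanti
  rw [Fintype.card_fin, sum_union hdis] at h1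
  have hpos : (0 : ℚ) < (n.choose s : ℚ) := by
    exact_mod_cast Nat.choose_pos (by omega)
  have h2 : (L.card : ℚ) * ((n.choose s : ℚ))⁻¹ ≤ ∑ A ∈ L, ((n.choose A.card : ℚ))⁻¹ := by
    rw [← nsmul_eq_mul, ← sum_const]
    refine sum_le_sum fun A hA => ?_
    rw [hmL] at hA
    have h3 : (0 : ℚ) < (n.choose A.card : ℚ) := by
      exact_mod_cast Nat.choose_pos (by omega)
    refine inv_anti₀ h3 ?_
    exact_mod_cast choose_half_OFK hA.2.le hs
  have h3 : ∑ A ∈ R, ((n.choose A.card : ℚ))⁻¹ = (R.card : ℚ) * ((n.choose s : ℚ))⁻¹ := by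
    rw [← nsmul_eq_mul, ← sum_const]
    refine sum_congr rfl fun A hA => ?_
    rw [hmR] at hA
    rw [hA.1]
  rw [h3] at h1
  have h4 : (L.card : ℚ) + R.card ≤ n.choose s := by
    have h5 : ((L.card : ℚ) + R.card) * ((n.choose s : ℚ))⁻¹ ≤ 1 := by
      rw [add_mul]
      linarith
    rwa [mul_inv_le_iff₀ hpos, one_mul] at h5
  have h5 : L.card + R.card ≤ n.choose s := by exact_mod_cast h4
  have hsub : upl F s ⊆ powersetCard s (univ : Finset (Fin n)) := by
    intro T hT
    rw [mem_powersetCard]
    exact ⟨subset_univ _, (mem_upl.1 hT).1⟩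
  have h6 : R.card = n.choose s - (upl F s).card := by
    rw [hR, card_sdiff_of_subset hsub, card_powersetCard, card_univ, Fintype.card_fin]
  have h7 : (upl F s).card ≤ n.choose s := by
    have := card_le_card hsub
    rwa [card_powersetCard, card_univ, Fintype.card_fin] at this
  omega

/-- **Case 1** -/
theorem case_one {s k : ℕ} (hk : 1 ≤ k) (hn : n = 2 * s + 1 + k) (hN : 9 * k + 15 ≤ n)
    (F : Finset (Finset (Fin n))) (hF : IsAntichain (· ⊆ ·) (F : Set (Finset (Fin n))))
    (hD : ∀ A ∈ F, ∀ B ∈ F, Disjoint A B → A.card + B.card ≤ 2 * s + 1)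
    (h0 : 4 ^ (3 * k + 3) * (dc F (s + 2)).card ≤ n.choose (s + 2)) :
    F.card ≤ n.choose s := by
  classical
  set P := F.filter fun A => A.card = s + 1 with hP
  set N := ∂ (dc F (s + 2)) with hNd
  have hmP : ∀ A, A ∈ P ↔ A ∈ F ∧ A.card = s + 1 := by
    intro A
    rw [hP, mem_filter]
  have hNsub : N ⊆ dc F (s + 1) := shadow_dc F (s + 1)
  -- `P` and `N` are disjoint
  have hPN : Disjoint P N := by
    rw [disjoint_left]
    intro A hA hA'
    rw [hmP] at hA
    obtain ⟨B, hB, a, ha, rfl⟩ := mem_shadow_iff.1 hA'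
    obtain ⟨_, C, hC, h2⟩ := mem_dc.1 hB
    have h3 : B.erase a = C := hF.eq hA.1 hC ((erase_subset _ _).trans h2)
    have h4 : a ∈ B.erase a := by
      rw [h3]
      exact h2 ha
    simp at h4
  have hint : ∀ A ∈ P, ∀ B ∈ P, (A ∩ B).Nonempty := by
    intro A hA B hB
    rw [hmP] at hA hB
    rw [← not_disjoint_iff_nonempty_inter]
    intro h
    have := hD A hA.1 B hB.1 h
    omega
  have hU : ∀ A ∈ P ∪ N, A.card = s + 1 := by
    intro A hA
    rw [mem_union] at hA
    rcases hA with hA | hA
    · exact ((hmP A).1 hA).2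
    · exact (mem_dc.1 (hNsub hA)).1
  have hrk := Pool.Agent.RKF.robust_katona P (P ∪ N) subset_union_left hU hint
  have hsd : (P ∪ N) \ P = N := by
    rw [union_sdiff_left]
    exact sdiff_eq_self_of_disjoint hPN.symm
  rw [hsd, card_union_of_disjoint hPN] at hrk
  have e1 : n - s = s + 1 + k := by omega
  have e2 : n - 2 * s - 1 = k := by omega
  rw [e1, e2] at hrk
  -- growth
  have hg1 := growth F hn hN (le_refl (s + 2)) h0
  have hg2 : (s + 2) * (dc F (s + 2)).card ≤ (s + k - (3 * k + 3)) * N.card := by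
    have h2 := choose_low (n := n) (m := s + 2) (3 * k + 3) (by omega)
    have h3 : (dc F (s + 2)).card ≤ (n - (3 * k + 3)).choose (s + 2) :=
      Nat.le_of_mul_le_mul_left (h0.trans h2) (by positivity)
    have h4 := kk_ratio (by omega) (Nat.sub_le n (3 * k + 3)) (dc F (s + 2))
      (sized_dc F (s + 2)) h3
    have e3 : n - (3 * k + 3) - (s + 2) + 1 = s + k - (3 * k + 3) := by omega
    rw [e3] at h4
    exact h4
  have hQ := card_above F hF hn hN h0 (n + 1) (s + 2) (by omega) (le_refl _)
  -- the three disjoint families of `s`-sets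
  have hsh : ∂ (P ∪ N) ⊆ dc F s := by
    refine (shadow_monotone ?_).trans (shadow_dc F s)
    refine union_subset ?_ hNsub
    intro A hA
    rw [hmP] at hA
    exact mem_dc.2 ⟨hA.2, A, hA.1, Subset.rfl⟩
  have hproper : ∀ T ∈ ∂ (P ∪ N), ∀ A ∈ F, ¬ A ⊆ T := by
    intro T hT A hA hAT
    obtain ⟨B, hB, a, ha, rfl⟩ := mem_shadow_iff.1 hT
    have hB' : B ∈ dc F (s + 1) := by
      rw [mem_union] at hB
      rcases hB with hB | hB
      · rw [hmP] at hB
        exact mem_dc.2 ⟨hB.2, B, hB.1, Subset.rfl⟩
      · exact hNsub hB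
    obtain ⟨_, C, hC, h2⟩ := mem_dc.1 hB'
    have h3 : A = C := hF.eq hA hC ((hAT.trans (erase_subset _ _)).trans h2)
    have h4 : a ∈ B.erase a := hAT (h3 ▸ h2 ha)
    simp at h4
  have hcount : (F.filter fun A => A.card = s).card + (upl F s).card + (∂ (P ∪ N)).card ≤
      n.choose s := by
    have hd1 : Disjoint (F.filter fun A => A.card = s) (upl F s) := by
      rw [disjoint_left]
      intro A hA hA'
      rw [mem_filter] at hA
      obtain ⟨_, B, hB, h1, h2⟩ := mem_upl.1 hA'
      have := hF.eq hB hA.1 h2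
      subst this
      omega
    have hd2 : Disjoint ((F.filter fun A => A.card = s) ∪ upl F s) (∂ (P ∪ N)) := by
      rw [disjoint_left]
      intro A hA hA'
      rw [mem_union, mem_filter] at hA
      rcases hA with hA | hA
      · exact hproper A hA' A hA.1 Subset.rfl
      · obtain ⟨_, B, hB, _, h2⟩ := mem_upl.1 hA
        exact hproper A hA' B hB h2
    rw [← card_union_of_disjoint hd1, ← card_union_of_disjoint hd2]
    have h1 : ((F.filter fun A => A.card = s) ∪ upl F s) ∪ ∂ (P ∪ N) ⊆
        powersetCard s (univ : Finset (Fin n)) := by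
      intro T hT
      rw [mem_powersetCard]
      refine ⟨subset_univ _, ?_⟩
      rw [mem_union, mem_union, mem_filter] at hT
      rcases hT with (hT | hT) | hT
      · exact hT.2
      · exact (mem_upl.1 hT).1
      · exact (mem_dc.1 (hsh hT)).1
    have h2 := card_le_card h1
    rwa [card_powersetCard, card_univ, Fintype.card_fin] at h2
  have hlow := card_low_le F hF (show 2 * s ≤ n by omega)
  -- total
  have htot : F.card ≤ (F.filter fun A => A.card < s).card + (F.filter fun A => A.card = s).card +
      P.card + (F.filter fun A => s + 2 ≤ A.card).card := by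
    have hsub : F ⊆ (((F.filter fun A => A.card < s) ∪ (F.filter fun A => A.card = s)) ∪ P) ∪
        (F.filter fun A => s + 2 ≤ A.card) := by
      intro A hA
      simp only [mem_union, mem_filter, hmP]
      rcases Nat.lt_or_ge A.card s with h | h
      · exact Or.inl (Or.inl (Or.inl ⟨hA, h⟩))
      · rcases Nat.lt_or_ge A.card (s + 2) with h' | h'
        · rcases Nat.lt_or_ge A.card (s + 1) with h'' | h''
          · exact Or.inl (Or.inl (Or.inr ⟨hA, by omega⟩))
          · exact Or.inl (Or.inr ⟨hA, by omega⟩)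
        · exact Or.inr ⟨hA, h'⟩
    refine (card_le_card hsub).trans ?_
    refine (card_union_le _ _).trans ?_
    refine Nat.add_le_add_right ?_ _
    refine (card_union_le _ _).trans ?_
    refine Nat.add_le_add_right ?_ _
    exact card_union_le _ _
  -- `|P| + |Q| ≤ |∂ (P ∪ N)|`
  have hmain : P.card + (dc F (s + 2)).card ≤ (∂ (P ∪ N)).card := by
    · -- multiply by `s + 1 + k`
      have hs4 : 3 * k + 3 ≤ s + k := by omega
      obtain ⟨r, hr⟩ : ∃ r, s + k = 3 * k + 3 + r := ⟨s + k - (3 * k + 3), by omega⟩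
      have hr' : s + k - (3 * k + 3) = r := by omega
      rw [hr'] at hg2
      have hs : s = 2 * k + 3 + r := by omega
      refine Nat.le_of_mul_le_mul_left (c := (s + 1 + k) * (s + 2)) ?_ (by positivity)
      have hkey : (s + 1 + k) * r ≤ (s + 2) * (s + 1 - k) := by
        have h1 : s + 1 - k = k + 4 + r := by omega
        rw [h1, hs]
        nlinarith
      have h5 : (s + 1 + k) * ((s + 2) * (dc F (s + 2)).card) ≤
          (s + 2) * ((s + 1 - k) * N.card) := by
        calc (s + 1 + k) * ((s + 2) * (dc F (s + 2)).card)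
            ≤ (s + 1 + k) * (r * N.card) := Nat.mul_le_mul_left _ hg2
          _ = (s + 1 + k) * r * N.card := by ring
          _ ≤ (s + 2) * (s + 1 - k) * N.card := Nat.mul_le_mul_right _ hkey
          _ = (s + 2) * ((s + 1 - k) * N.card) := by ring
      have h6 : (s + 1 + k) * P.card + (s + 1 - k) * N.card ≤
          (s + 1 + k) * (∂ (P ∪ N)).card := by
        obtain ⟨q, hq⟩ : ∃ q, s + 1 = k + q := ⟨s + 1 - k, by omega⟩
        have hq' : s + 1 - k = q := by omega
        rw [hq']
        have h7 : s + 1 + k = 2 * k + q := by omega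
        rw [h7] at hrk ⊢
        nlinarith
      calc (s + 1 + k) * (s + 2) * (P.card + (dc F (s + 2)).card)
          = (s + 2) * ((s + 1 + k) * P.card) + (s + 1 + k) * ((s + 2) * (dc F (s + 2)).card) := by
            ring
        _ ≤ (s + 2) * ((s + 1 + k) * P.card) + (s + 2) * ((s + 1 - k) * N.card) :=
            Nat.add_le_add_left h5 _
        _ = (s + 2) * ((s + 1 + k) * P.card + (s + 1 - k) * N.card) := by ring
        _ ≤ (s + 2) * ((s + 1 + k) * (∂ (P ∪ N)).card) := Nat.mul_le_mul_left _ h6
        _ = (s + 1 + k) * (s + 2) * (∂ (P ∪ N)).card := by ring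
  omega

end Pool.Agent.OFK66
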