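import Mathlib

/-!
# Kruskal-Katona in ratio form (for the odd half of MP_f155e9_co, page h97_oddfix.md section 1)

`kk_ratio`: a family of at most `C(x, m)` sets of size `m`, `x ≤ n`, satisfies
`m |V| ≤ (x - m + 1) |∂ V|`.
-/

set_option autoImplicit false

namespace Pool.Agent.OFK66

open Finset Finset.Colex
open scoped FinsetFamily

variable {n : ℕ}

/-- there is an initial segment of the colex order of every size -/
theorem exists_initSeg_card (r N : ℕ) (hN : N ≤ n.choose r) :
    ∃ C : Finset (Finset (Fin n)), IsInitSeg C r ∧ C.card = N := by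
  classical
  induction N with
  | zero => exact ⟨∅, isInitSeg_empty, rfl⟩
  | succ N ih =>
    obtain ⟨C, h1, h2⟩ := ih (by omega)
    have hsub : C ⊆ powersetCard r (univ : Finset (Fin n)) := by
      intro s hs
      rw [mem_powersetCard]
      exact ⟨subset_univ _, h1.1 hs⟩
    have hR : (powersetCard r (univ : Finset (Fin n)) \ C).Nonempty := by
      rw [← card_pos, card_sdiff_of_subset hsub, card_powersetCard, card_univ, Fintype.card_fin, h2]
      omega
    obtain ⟨s, hs, hmin⟩ := exists_min_image (powersetCard r (univ : Finset (Fin n)) \ C)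
      (fun s => toColex s) hR
    rw [mem_sdiff, mem_powersetCard] at hs
    refine ⟨insert s C, ⟨?_, ?_⟩, by rw [card_insert_of_notMem hs.2, h2]⟩
    · intro t ht
      rw [mem_coe, mem_insert] at ht
      rcases ht with rfl | ht
      · exact hs.1.2
      · exact h1.1 ht
    · intro a t ha ht
      rw [mem_insert] at ha ⊢
      by_contra hne
      push Not at hne
      rcases ha with rfl | ha
      · have h3 := hmin t (by
          rw [mem_sdiff, mem_powersetCard]
          exact ⟨⟨subset_univ _, ht.2⟩, hne.2⟩)
        exact absurd ht.1 (not_lt.2 h3)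
      · exact hne.2 (h1.2 ha ht)

/-- the sets of size `r` in the first `x` points -/
def low (n x r : ℕ) : Finset (Finset (Fin n)) :=
  powersetCard r (univ.filter fun a : Fin n => (a : ℕ) < x)

theorem mem_low {x r : ℕ} {s : Finset (Fin n)} :
    s ∈ low n x r ↔ (∀ a ∈ s, (a : ℕ) < x) ∧ s.card = r := by
  unfold low
  rw [mem_powersetCard]
  refine and_congr_left fun _ => ?_
  constructor
  · intro h a ha
    exact (mem_filter.1 (h ha)).2
  · intro h a ha
    exact mem_filter.2 ⟨mem_univ _, h a ha⟩

theorem card_filter_lt {x : ℕ} (hx : x ≤ n) : (univ.filter fun a : Fin n => (a : ℕ) < x).card = x := by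
  classical
  have h : (univ.filter fun a : Fin n => (a : ℕ) < x) =
      (range x).attachFin (fun i hi => lt_of_lt_of_le (mem_range.1 hi) hx) := by
    ext a
    rw [mem_filter, mem_attachFin, mem_range]
    simp
  rw [h, card_attachFin, card_range]

theorem isInitSeg_low {x r : ℕ} : IsInitSeg (low n x r) r := by
  refine ⟨fun s hs => (mem_low.1 hs).2, ?_⟩
  intro s t hs ht
  rw [mem_low] at hs ⊢
  refine ⟨?_, ht.2⟩
  intro b hb
  by_cases hbs : b ∈ s
  · exact hs.1 b hbs
  · obtain ⟨c, hc, -, hbc⟩ := ht.1.le hb hbs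
    exact lt_of_le_of_lt (by exact_mod_cast hbc) (hs.1 c hc)

/-- local LYM in the first `x` points -/
theorem mul_card_le {x r : ℕ} (hx : x ≤ n) (C : Finset (Finset (Fin n))) (hC : C ⊆ low n x r)
    (hr : 1 ≤ r) : C.card * r ≤ (∂ C).card * (x - r + 1) := by
  classical
  refine card_mul_le_card_mul' (fun (s t : Finset (Fin n)) => s ⊆ t) ?_ ?_
  · intro s hs
    have hs' := mem_low.1 (hC hs)
    rw [← hs'.2, ← card_image_of_injOn s.erase_injOn]
    refine card_le_card ?_
    simp_rw [image_subset_iff, mem_bipartiteBelow]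
    exact fun a ha => ⟨erase_mem_shadow hs ha, erase_subset _ _⟩
  · intro s hs
    obtain ⟨t, ht, a, ha, rfl⟩ := mem_shadow_iff.1 hs
    have ht' := mem_low.1 (hC ht)
    have hcard : (t.erase a).card = r - 1 := by rw [card_erase_of_mem ha, ht'.2]
    have hsub : (C.bipartiteAbove (fun s t => s ⊆ t) (t.erase a)) ⊆
        ((univ.filter fun b : Fin n => (b : ℕ) < x) \ (t.erase a)).image
          (fun b => insert b (t.erase a)) := by
      intro u hu
      rw [mem_bipartiteAbove] at hu
      have hu' := mem_low.1 (hC hu.1)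
      have h1 : (u \ t.erase a).card = 1 := by
        rw [card_sdiff_of_subset hu.2, hu'.2, hcard]
        omega
      obtain ⟨b, hb⟩ := card_eq_one.1 h1
      have hbu : b ∈ u \ t.erase a := by rw [hb]; exact mem_singleton_self b
      rw [mem_sdiff] at hbu
      rw [mem_image]
      refine ⟨b, ?_, ?_⟩
      · rw [mem_sdiff, mem_filter]
        exact ⟨⟨mem_univ _, hu'.1 b hbu.1⟩, hbu.2⟩
      · rw [insert_eq, ← hb, sdiff_union_of_subset hu.2]
    refine (card_le_card hsub).trans (card_image_le.trans ?_)
    rw [card_sdiff_of_subset, card_filter_lt hx, hcard]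
    · omega
    · intro b hb
      rw [mem_filter]
      exact ⟨mem_univ _, ht'.1 b (erase_subset _ _ hb)⟩

/-- **Kruskal-Katona in ratio form** -/
theorem kk_ratio {m x : ℕ} (hm : 1 ≤ m) (hx : x ≤ n) (V : Finset (Finset (Fin n)))
    (hV : (V : Set (Finset (Fin n))).Sized m) (hc : V.card ≤ x.choose m) :
    m * V.card ≤ (x - m + 1) * (∂ V).card := by
  classical
  obtain ⟨C, h1, h2⟩ := exists_initSeg_card (n := n) m V.card
    (hc.trans (Nat.choose_le_choose m hx))
  have h3 : (∂ C).card ≤ (∂ V).card := kruskal_katona hV h2.le h1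
  have h4 : (low n x m).card = x.choose m := by
    unfold low
    rw [card_powersetCard, card_filter_lt hx]
  have h5 : C ⊆ low n x m := by
    rcases IsInitSeg.total h1 (isInitSeg_low (n := n) (x := x) (r := m)) with h | h
    · exact h
    · have : low n x m = C := eq_of_subset_of_card_le h (by rw [h4, h2]; exact hc)
      rw [this]
  have h6 := mul_card_le hx C h5 hm
  rw [h2] at h6
  calc m * V.card = V.card * m := mul_comm _ _
    _ ≤ (∂ C).card * (x - m + 1) := h6
    _ ≤ (∂ V).card * (x - m + 1) := Nat.mul_le_mul_right _ h3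
    _ = (x - m + 1) * (∂ V).card := mul_comm _ _

end Pool.Agent.OFK66
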